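import Pool.Agent.TH981.LO.Main

/-!
# Uniqueness of the Gibbs measure of the subcritical loop O(1) model

For every `d ≥ 2` and every `0 < x < x_c = tanh β_c(d)` the loop O(1) model on `ℤ^d` with
parameter `x` has exactly one Gibbs measure.

All definitions used in the statement are in `Pool/Agent/TH981/LO/Defs.lean`:
* `Om d` : configurations `Ed d → Bool`, where `(v,i) : Ed d` is the edge from `v` to `v + e_i`;
* `betaC d` : the critical inverse temperature, the infimum of the `β ≥ 0` for which the
  spontaneous magnetization `mStar d β` (infimum over the boxes `{-n,…,n}^d` of the magnetization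
  at the origin with plus boundary conditions) is positive;
* `IsGibbs d x μ` : the DLR equations for all finite subgraphs `(VG, S)` of `ℤ^d`.
-/

set_option autoImplicit false

open Pool.Agent.TH981.LO
open MeasureTheory

namespace Pool.Agent.Results.MP_f0ab88_pr.LoopO1Uniqueness

theorem result (d : ℕ) (hd : 2 ≤ d) (x : ℝ) (hx0 : 0 < x) (hx : x < Real.tanh (betaC d)) :
    ∃! μ : Measure (Om d), IsProbabilityMeasure μ ∧ IsGibbs d x μ :=
  Main.assembly d hd x hx0 hx

end Pool.Agent.Results.MP_f0ab88_pr.LoopO1Uniqueness
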